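import Mathlib
import Pool.Agent.N852.GR.EngT

/-!
Systems of bilinear equations over number fields: the count of the good pairs (after
`Pool.Agent.N852.GR.EngT`, without the symmetry).
-/

namespace Pool.Agent.U239.BI

open scoped Classical
open NumberField Module Matrix
open Pool.Agent.N852.GR
open Pool.Agent.N852.GR.EngT (LL io_mem_WW rk_le rk_good ncard_fib TS_finite cnt_le ball_le
  ball_finite TS_pack)

variable {F : Type} [Field F] [NumberField F] {n k : ℕ}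

/-- the transposed matrices -/
def tr {R : Type} (A : Fin k → Matrix (Fin n) (Fin n) R) : Fin k → Matrix (Fin n) (Fin n) R :=
  fun i => (A i)ᵀ

theorem tr_tr {R : Type} (A : Fin k → Matrix (Fin n) (Fin n) R) : tr (tr A) = A := rfl

theorem dr_tr (A : Fin k → Matrix (Fin n) (Fin n) (𝓞 F)) (a b : Fin n → 𝓞 F) (i : Fin k) :
    dr (tr A) b i ⬝ᵥ a = dr A a i ⬝ᵥ b := by
  unfold dr tr
  rw [dotProduct_comm, Matrix.dotProduct_mulVec, Matrix.vecMul_transpose]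

/-- The good pairs. -/
def GS (A : Fin k → Matrix (Fin n) (Fin n) (𝓞 F)) (X Y : ℝ) :
    Set ((Fin n → 𝓞 F) × (Fin n → 𝓞 F)) :=
  {p | p ∈ TS A X Y ∧ Gd (tr A) p.2}

theorem GS_swap (A : Fin k → Matrix (Fin n) (Fin n) (𝓞 F)) (X Y : ℝ) :
    Prod.swap '' (GS A X Y) = GS (tr A) Y X := by
  ext p
  rw [Set.mem_image]
  constructor
  · rintro ⟨q, ⟨⟨h1, h2, h3, h4⟩, h5⟩, rfl⟩
    refine ⟨⟨h2, h1, h5, fun i => ?_⟩, h3⟩
    exact (dr_tr A q.1 q.2 i).trans (h4 i)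
  · rintro ⟨⟨h1, h2, h3, h4⟩, h5⟩
    refine ⟨p.swap, ⟨⟨h2, h1, h5, fun i => ?_⟩, h3⟩, Prod.swap_swap p⟩
    have := dr_tr A p.2 p.1 i
    exact this.symm.trans (h4 i)

theorem GS_finite (hL : LatP F) (A : Fin k → Matrix (Fin n) (Fin n) (𝓞 F)) (X Y : ℝ) :
    (GS A X Y).Finite :=
  (TS_finite hL A X Y).subset fun _ h => h.1

/-- The bound for the bad second vectors. -/
theorem TS_le' (hL : LatP F) (hD : DimP F) (A : Fin k → Matrix (Fin n) (Fin n) (𝓞 F))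
    (hkn : k ≤ n) (X ρ : ℝ) (hX : 1 ≤ X) (Z : Finset (Fin n → 𝓞 F))
    (hZ : ∀ b, b ∈ Z ↔ ‖io b‖ ≤ ρ ∧ ¬ Gd (tr A) b) : ((TS A X ρ).ncard : ℝ) ≤
      (GS A X ρ).ncard + 6 ^ (finrank ℚ F * n) * X ^ (finrank ℚ F * (n - k)) *
        ∑ b ∈ Z, X ^ (finrank ℚ F * (k - rk (dr (tr A) b))) := by
  set D : Set ((Fin n → 𝓞 F) × (Fin n → 𝓞 F)) :=
    {p | (‖io p.1‖ ≤ ρ ∧ ¬ Gd (tr A) p.1) ∧ (p.2 ∈ LL (tr A) p.1 ∧ ‖io p.2‖ ≤ X)} with hDdef
  have hDf : D.Finite := by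
    refine ((ball_finite hL n ρ).prod (ball_finite hL n X)).subset ?_
    rintro p ⟨⟨h1, -⟩, -, h2⟩
    exact ⟨h1, h2⟩
  have hsub : TS A X ρ ⊆ GS A X ρ ∪ Prod.swap '' D := by
    rintro p hp
    by_cases hg : Gd (tr A) p.2
    · exact Or.inl ⟨hp, hg⟩
    · refine Or.inr ⟨p.swap, ⟨⟨hp.2.1, hg⟩, fun i => ?_, hp.1⟩, Prod.swap_swap p⟩
      exact (dr_tr A p.1 p.2 i).trans (hp.2.2.2 i)
  have h1 : (TS A X ρ).ncard ≤ (GS A X ρ).ncard + D.ncard := by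
    refine (Set.ncard_le_ncard hsub ((GS_finite hL A X ρ).union (hDf.image _))).trans ?_
    refine (Set.ncard_union_le _ _).trans ?_
    rw [Set.ncard_image_of_injective _ Prod.swap_injective]
  have h2 : (D.ncard : ℝ) ≤ 6 ^ (finrank ℚ F * n) * X ^ (finrank ℚ F * (n - k)) *
        ∑ b ∈ Z, X ^ (finrank ℚ F * (k - rk (dr (tr A) b))) := by
    rw [ncard_fib D hDf Z (fun p hp => (hZ p.1).2 hp.1)]
    push_cast
    rw [Finset.mul_sum]
    refine Finset.sum_le_sum fun b hb => ?_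
    have hS : {a | (b, a) ∈ D} = {a | a ∈ LL (tr A) b ∧ ‖io a‖ ≤ X} := by
      ext a
      constructor
      · rintro ⟨-, h⟩
        exact h
      · intro h
        exact ⟨(hZ b).1 hb, h⟩
    rw [hS]
    have h3 := cnt_le hL (LL (tr A) b) (WW (dr (tr A) b))
      (fun x hx => io_mem_WW (tr A) b x hx) X hX
    rw [hD n (Fin k) (dr (tr A) b)] at h3
    have h4 : n - rk (dr (tr A) b) = (n - k) + (k - rk (dr (tr A) b)) := by
      have := rk_le (tr A) b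
      omega
    have h5 : X ^ (finrank ℚ F * (n - rk (dr (tr A) b))) = X ^ (finrank ℚ F * (n - k)) *
        X ^ (finrank ℚ F * (k - rk (dr (tr A) b))) := by
      rw [h4, mul_add, pow_add]
    calc _ ≤ _ := h3
      _ = 6 ^ (finrank ℚ F * (n - rk (dr (tr A) b))) *
          X ^ (finrank ℚ F * (n - rk (dr (tr A) b))) := mul_pow _ _ _
      _ ≤ 6 ^ (finrank ℚ F * n) * X ^ (finrank ℚ F * (n - rk (dr (tr A) b))) := by
          refine mul_le_mul_of_nonneg_right ?_ (by positivity)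
          refine pow_le_pow_right₀ (by norm_num) (Nat.mul_le_mul_left _ (Nat.sub_le _ _))
      _ = _ := by rw [h5]; ring
  have h6 : ((TS A X ρ).ncard : ℝ) ≤ (GS A X ρ).ncard + D.ncard := by exact_mod_cast h1
  linarith

/-- the hypothesis on the ranks passes to the transposed matrices -/
theorem rc_tr {A : Fin k → Matrix (Fin n) (Fin n) F} {R : ℕ} (h : RC A R) : RC (tr A) R := by
  intro σ l hl
  have h1 : ∑ i, l i • (tr A i).map σ = (∑ i, l i • (A i).map σ)ᵀ := by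
    ext p q
    simp [tr, Matrix.sum_apply, Matrix.transpose_apply]
  rw [h1, Matrix.rank_transpose]
  exact h σ l hl

theorem cm_tr (A : Fin k → Matrix (Fin n) (Fin n) (𝓞 F)) : cm (tr A) = tr (cm A) := rfl

/-- the inequality H2 for one system -/
theorem h2one (hL : LatP F) (hD : DimP F) (A : Fin k → Matrix (Fin n) (Fin n) (𝓞 F))
    (hkn : 2 * k + 1 ≤ n) (CB : ℝ) (hCB1 : 1 ≤ CB)
    (hCB : ∀ μ : ℝ, 1 ≤ μ → ∀ Z : Finset (Fin n → 𝓞 F),
      (∀ b ∈ Z, ‖io b‖ ≤ μ ∧ ¬ Gd (tr A) b) →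
      ∑ b ∈ Z, μ ^ (finrank ℚ F * (k - rk (dr (tr A) b))) ≤
        CB * μ ^ (finrank ℚ F * (k + n - (2 * k + 1))))
    (X ρ g : ℝ) (hX : 1 ≤ X) (hρ : 1 ≤ ρ) (hg : 1 ≤ g) (hXg : X ≤ g * ρ) :
    ((TS A X ρ).ncard : ℝ) ≤ ((GS A X ρ).ncard : ℝ) +
      (6 ^ (finrank ℚ F * n) * CB) * ((X * ρ) ^ (finrank ℚ F * (n - k)) *
        (g ^ (finrank ℚ F * k) / ρ ^ finrank ℚ F)) := by
  set d := finrank ℚ F with hd
  have hf : {b : Fin n → 𝓞 F | ‖io b‖ ≤ ρ ∧ ¬ Gd (tr A) b}.Finite :=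
    (ball_finite hL n ρ).subset fun _ h => h.1
  have h1 := TS_le' hL hD A (by omega) X ρ hX hf.toFinset
    (fun b => Set.Finite.mem_toFinset hf)
  refine h1.trans ?_
  have h2 := hCB ρ hρ hf.toFinset (fun b hb => (Set.Finite.mem_toFinset hf).1 hb)
  have h3 : ∑ b ∈ hf.toFinset, X ^ (d * (k - rk (dr (tr A) b))) ≤
      g ^ (d * k) * ∑ b ∈ hf.toFinset, ρ ^ (d * (k - rk (dr (tr A) b))) := by
    rw [Finset.mul_sum]
    refine Finset.sum_le_sum fun b _ => ?_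
    calc X ^ (d * (k - rk (dr (tr A) b))) ≤ (g * ρ) ^ (d * (k - rk (dr (tr A) b))) :=
          pow_le_pow_left₀ (by linarith) hXg _
      _ = g ^ (d * (k - rk (dr (tr A) b))) * ρ ^ (d * (k - rk (dr (tr A) b))) := mul_pow _ _ _
      _ ≤ g ^ (d * k) * ρ ^ (d * (k - rk (dr (tr A) b))) := by
          refine mul_le_mul_of_nonneg_right ?_ (by positivity)
          exact pow_le_pow_right₀ hg (Nat.mul_le_mul_left _ (Nat.sub_le _ _))
  have hρ0 : 0 < ρ := by linarith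
  have hX0 : 0 < X := by linarith
  have hg0 : 0 < g := by linarith
  have h4 : ρ ^ (d * (k + n - (2 * k + 1))) = ρ ^ (d * (n - k)) / ρ ^ d := by
    rw [eq_div_iff (by positivity), ← pow_add]
    congr 1
    have : n - k = (k + n - (2 * k + 1)) + 1 := by omega
    rw [this]
    ring
  rw [h4] at h2
  have h5 : (6 : ℝ) ^ (d * n) * X ^ (d * (n - k)) *
      ∑ b ∈ hf.toFinset, X ^ (d * (k - rk (dr (tr A) b))) ≤
      6 ^ (d * n) * X ^ (d * (n - k)) * (g ^ (d * k) * (CB * (ρ ^ (d * (n - k)) / ρ ^ d))) := by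
    refine mul_le_mul_of_nonneg_left ?_ (by positivity)
    refine h3.trans ?_
    exact mul_le_mul_of_nonneg_left h2 (by positivity)
  have h7 : 6 ^ (d * n) * X ^ (d * (n - k)) * (g ^ (d * k) * (CB * (ρ ^ (d * (n - k)) / ρ ^ d)))
      = (6 ^ (d * n) * CB) * ((X * ρ) ^ (d * (n - k)) * (g ^ (d * k) / ρ ^ d)) := by
    rw [mul_pow]
    ring
  rw [h7] at h5
  linarith

/-- the count of the good pairs -/
theorem eng (hL : LatP F) (hD : DimP F) (hB : BadP F) (hE : EpsP)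
    (A : Fin k → Matrix (Fin n) (Fin n) (𝓞 F)) (hk : 1 ≤ k) (hRC : RC (cm A) (2 * k + 1))
    (ε : ℝ) (hε : 0 < ε) : ∃ C : ℝ, 1 ≤ C ∧ ∀ X Y M : ℝ, 1 ≤ X → X ≤ M → 1 ≤ Y → Y ≤ M →
      (GS A X Y).Finite ∧
        ((GS A X Y).ncard : ℝ) ≤ C * (X * Y) ^ (finrank ℚ F * (n - k)) * M ^ ε := by
  have hRn : 2 * k + 1 ≤ n := EngT.RC_le A hk _ hRC
  have hkn : k ≤ n := by omega
  have hRCt : RC (cm (tr A)) (2 * k + 1) := by
    rw [cm_tr]
    exact rc_tr hRC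
  obtain ⟨CB₁, hCB₁, hB₁⟩ := hB n k (2 * k + 1) A hRC hRn
  obtain ⟨CB₂, hCB₂, hB₂⟩ := hB n k (2 * k + 1) (tr A) hRCt hRn
  set d := finrank ℚ F with hd
  have hd1 : 1 ≤ d := Module.finrank_pos
  set C : ℝ := 6 ^ (2 * (d * n)) * (CB₁ + CB₂) with hC
  have h6 : (1 : ℝ) ≤ 6 ^ (d * n) := one_le_pow₀ (by norm_num)
  have h66 : (6 : ℝ) ^ (2 * (d * n)) = 6 ^ (d * n) * 6 ^ (d * n) := by
    rw [two_mul, pow_add]
  have h60 : (6 : ℝ) ^ (d * n) ≤ 6 ^ (d * n) * 6 ^ (d * n) := by nlinarith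
  have hC2 : (6 : ℝ) ^ (d * n) * 6 ^ (d * n) * 2 ≤ C := by
    rw [hC, h66]
    refine mul_le_mul_of_nonneg_left (by linarith) (by positivity)
  have hC3 : (6 : ℝ) ^ (d * n) * CB₁ + 6 ^ (d * n) * CB₂ ≤ C := by
    rw [hC, h66, ← mul_add]
    exact mul_le_mul_of_nonneg_right h60 (by linarith)
  have hC4 : (6 : ℝ) ^ (d * n) ≤ C := by nlinarith
  have hC1 : (1 : ℝ) ≤ C := h6.trans hC4
  have hCT : ∀ (B : Fin k → Matrix (Fin n) (Fin n) (𝓞 F)) (X Y ρ : ℝ), 1 ≤ ρ → ρ ≤ Y →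
      ((TS B X Y).ncard : ℝ) ≤ C * (Y / ρ) ^ (d * (n - k)) * ((TS B X ρ).ncard : ℝ) := by
    intro B X Y ρ hρ hY
    refine (TS_pack hL hD B X Y ρ hρ hY).trans ?_
    refine mul_le_mul_of_nonneg_right ?_ (Nat.cast_nonneg _)
    rw [mul_div_assoc, mul_pow]
    have hYρ : 0 ≤ Y / ρ := by
      have : 0 ≤ Y := by linarith
      positivity
    refine mul_le_mul_of_nonneg_right ?_ (by positivity)
    refine le_trans ?_ hC4
    calc (3 : ℝ) ^ (d * (n - k)) ≤ 6 ^ (d * (n - k)) :=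
          pow_le_pow_left₀ (by norm_num) (by norm_num) _
      _ ≤ 6 ^ (d * n) := pow_le_pow_right₀ (by norm_num) (Nat.mul_le_mul_left _ (Nat.sub_le _ _))
  have hball : ∀ (B : Fin k → Matrix (Fin n) (Fin n) (𝓞 F)) (X Y : ℝ), 1 ≤ X → 1 ≤ Y →
      ((GS B X Y).ncard : ℝ) ≤ (6 ^ (d * n) * 6 ^ (d * n)) * (X * Y) ^ (d * n) := by
    intro B X Y hX hY
    have h1 : (GS B X Y).ncard ≤ {x : Fin n → 𝓞 F | ‖io x‖ ≤ X}.ncard *
        {x : Fin n → 𝓞 F | ‖io x‖ ≤ Y}.ncard := by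
      rw [← Set.ncard_prod]
      refine Set.ncard_le_ncard ?_ ((ball_finite hL n X).prod (ball_finite hL n Y))
      rintro p ⟨⟨h1, h2, -, -⟩, -⟩
      exact ⟨h1, h2⟩
    have h2 : ((GS B X Y).ncard : ℝ) ≤ ({x : Fin n → 𝓞 F | ‖io x‖ ≤ X}.ncard : ℝ) *
        ({x : Fin n → 𝓞 F | ‖io x‖ ≤ Y}.ncard : ℝ) := by exact_mod_cast h1
    refine h2.trans ?_
    have h3 := ball_le hL n X hX
    have h4 := ball_le hL n Y hY
    calc _ ≤ (6 * X) ^ (d * n) * (6 * Y) ^ (d * n) :=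
          mul_le_mul h3 h4 (Nat.cast_nonneg _) (by positivity)
      _ = (6 ^ (d * n) * 6 ^ (d * n)) * (X * Y) ^ (d * n) := by
          rw [mul_pow, mul_pow, mul_pow]
          ring
  have hsub : ∀ (B : Fin k → Matrix (Fin n) (Fin n) (𝓞 F)) (X Y : ℝ),
      ((GS B X Y).ncard : ℝ) ≤ ((TS B X Y).ncard : ℝ) := by
    intro B X Y
    have := Set.ncard_le_ncard (s := GS B X Y) (t := TS B X Y) (fun _ h => h.1)
      (TS_finite hL B X Y)
    exact_mod_cast this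
  obtain ⟨C', hC'1, hC'⟩ := hE
    (fun X Y => ((GS A X Y).ncard : ℝ) + ((GS (tr A) X Y).ncard : ℝ))
    (fun X Y => ((TS A X Y).ncard : ℝ) + ((TS (tr A) X Y).ncard : ℝ)) d (n - k) k (d * n) C
    hd1 hk hC1
    (fun X Y => by positivity)
    (fun X Y => add_le_add (hsub A X Y) (hsub (tr A) X Y))
    (fun X Y => by
      show ((GS A X Y).ncard : ℝ) + ((GS (tr A) X Y).ncard : ℝ) =
        ((GS A Y X).ncard : ℝ) + ((GS (tr A) Y X).ncard : ℝ)
      have e1 : (GS (tr A) X Y).ncard = (GS A Y X).ncard := by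
        rw [← GS_swap A Y X, Set.ncard_image_of_injective _ Prod.swap_injective]
      have e2 : (GS (tr A) Y X).ncard = (GS A X Y).ncard := by
        rw [← GS_swap A X Y, Set.ncard_image_of_injective _ Prod.swap_injective]
      rw [e1, e2, add_comm])
    (fun X Y ρ hX hρ hY => by
      show ((TS A X Y).ncard : ℝ) + ((TS (tr A) X Y).ncard : ℝ) ≤
        C * (Y / ρ) ^ (d * (n - k)) * (((TS A X ρ).ncard : ℝ) + ((TS (tr A) X ρ).ncard : ℝ))
      have h1 := hCT A X Y ρ hρ hY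
      have h2 := hCT (tr A) X Y ρ hρ hY
      rw [mul_add]
      exact add_le_add h1 h2)
    (fun X ρ g hX hρ hg hXg => by
      show ((TS A X ρ).ncard : ℝ) + ((TS (tr A) X ρ).ncard : ℝ) ≤
        ((GS A X ρ).ncard : ℝ) + ((GS (tr A) X ρ).ncard : ℝ) +
        C * (X * ρ) ^ (d * (n - k)) * (g ^ (d * k) / ρ ^ d)
      have h1 := h2one hL hD A hRn CB₂ hCB₂ hB₂ X ρ g hX hρ hg hXg
      have h2 := h2one hL hD (tr A) hRn CB₁ hCB₁ (by rw [tr_tr]; exact hB₁) X ρ g hX hρ hg hXg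
      have hρ0 : 0 < ρ := by linarith
      have hX0 : 0 < X := by linarith
      have hg0 : 0 < g := by linarith
      set W : ℝ := (X * ρ) ^ (d * (n - k)) * (g ^ (d * k) / ρ ^ d) with hW
      have hW0 : 0 ≤ W := by positivity
      have h3 : (6 ^ (d * n) * CB₂) * W + (6 ^ (d * n) * CB₁) * W ≤ C * W := by
        rw [← add_mul]
        exact mul_le_mul_of_nonneg_right (by linarith) hW0
      have h4 : C * (X * ρ) ^ (d * (n - k)) * (g ^ (d * k) / ρ ^ d) = C * W := by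
        rw [hW]; ring
      rw [h4]
      linarith)
    (fun X Y hX hY => by
      show ((GS A X Y).ncard : ℝ) + ((GS (tr A) X Y).ncard : ℝ) ≤ C * (X * Y) ^ (d * n)
      have h1 := hball A X Y hX hY
      have h2 := hball (tr A) X Y hX hY
      have h3 : (6 ^ (d * n) * 6 ^ (d * n)) * (X * Y) ^ (d * n) +
          (6 ^ (d * n) * 6 ^ (d * n)) * (X * Y) ^ (d * n) ≤ C * (X * Y) ^ (d * n) := by
        rw [← add_mul]
        exact mul_le_mul_of_nonneg_right (by linarith) (by positivity)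
      linarith)
    ε hε
  refine ⟨C', hC'1, fun X Y M hX hXM hY hYM => ⟨GS_finite hL A X Y, ?_⟩⟩
  have h := hC' X Y M hX hXM hY hYM
  have h0 : (0 : ℝ) ≤ ((GS (tr A) X Y).ncard : ℝ) := Nat.cast_nonneg _
  have h' : ((GS A X Y).ncard : ℝ) + ((GS (tr A) X Y).ncard : ℝ) ≤
      C' * (X * Y) ^ (d * (n - k)) * M ^ ε := h
  linarith

end Pool.Agent.U239.BI
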