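import Mathlib
import Pool.Agent.U239.BI.Eng
import Pool.Agent.N852.GR.Exu
import Pool.Agent.N852.GR.Smt

/-!
Systems of bilinear equations over number fields: a rational point of the open set, and the ranks.
-/

namespace Pool.Agent.U239.BI

open scoped Classical
open NumberField Module Matrix
open Pool.Agent.N852.GR

variable {F : Type} [Field F] [NumberField F] {n k : ℕ}

/-- The Jacobian criterion. -/
def Smth (M : Fin k → Matrix (Fin n) (Fin n) F) : Prop :=
  ∀ (σ : F →+* ℂ) (x y : Fin n → ℂ), x ≠ 0 → y ≠ 0 → (∀ i, x ⬝ᵥ (M i).map σ *ᵥ y = 0) →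
    ∀ l : Fin k → ℂ, l ≠ 0 → (∑ i, l i • (M i).map σ) *ᵥ y ≠ 0 ∨
      x ᵥ* (∑ i, l i • (M i).map σ) ≠ 0

/-- the ranks over `F` -/
theorem rk_of {A : Fin k → Matrix (Fin n) (Fin n) F} {R : ℕ} (hRC : RC A R) (l : Fin k → F)
    (hl : l ≠ 0) : R ≤ finrank F (LinearMap.range (∑ i, l i • (A i).mulVecLin)) := by
  obtain ⟨σ⟩ : Nonempty (F →+* ℂ) := inferInstance
  have h1 : (∑ i, l i • A i).map σ = ∑ i, σ (l i) • (A i).map σ := by
    ext p q
    simp only [Matrix.map_apply, Matrix.sum_apply, Matrix.smul_apply, smul_eq_mul, map_sum,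
      map_mul]
  have h2 : (∑ i, l i • (A i).mulVecLin) = (∑ i, l i • A i).mulVecLin := by
    ext1 j
    ext1
    simp [Matrix.mulVecLin, Matrix.sum_mulVec]
  rw [h2]
  show R ≤ (∑ i, l i • A i).rank
  rw [← rank_map_eq σ, h1]
  apply hRC σ (fun i => σ (l i))
  intro h0
  apply hl
  funext i
  have := congrFun h0 i
  simpa using this

/-- a rational point of the open set -/
theorem exu (hL : LldP) (A : Fin k → Matrix (Fin n) (Fin n) F) (hk : 1 ≤ k)
    (hRC : RC A (2 * k)) : ∃ x y : Fin n → F, (∀ i, x ⬝ᵥ A i *ᵥ y = 0) ∧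
      LinearIndependent F (fun i => x ᵥ* A i) ∧ LinearIndependent F (fun i => A i *ᵥ y) := by
  obtain ⟨x, hx⟩ := hL F (Fin n → F) (Fin n → F) k (fun i => (tr A i).mulVecLin) hk (by
    intro l hl
    exact le_trans (by omega) (rk_of (rc_tr hRC) l hl))
  have hx' : LinearIndependent F (fun i => x ᵥ* A i) := by
    have e : (fun i => (tr A i).mulVecLin x) = fun i => x ᵥ* A i := by
      funext i
      rw [Matrix.mulVecLin_apply]
      exact Matrix.mulVec_transpose (A i) x
    rw [← e]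
    exact hx
  let φ : (Fin n → F) →ₗ[F] (Fin k → F) :=
    LinearMap.pi fun i => (dotProductBilin F F x).comp (A i).mulVecLin
  have hφ : ∀ z i, φ z i = x ⬝ᵥ A i *ᵥ z := fun z i => rfl
  set V := LinearMap.ker φ with hV
  have hVd : n ≤ finrank F V + k := by
    have h1 := LinearMap.finrank_range_add_finrank_ker φ
    have h2 : finrank F (LinearMap.range φ) ≤ k := by
      have := Submodule.finrank_le (LinearMap.range φ)
      rwa [finrank_fin_fun] at this
    rw [finrank_fin_fun] at h1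
    rw [hV]
    omega
  obtain ⟨v, hv⟩ := hL F V (Fin n → F) k (fun i => (A i).mulVecLin ∘ₗ V.subtype) hk (by
    intro l hl
    have h1 : (∑ i, l i • ((A i).mulVecLin ∘ₗ V.subtype)) =
        (∑ i, l i • (A i).mulVecLin) ∘ₗ V.subtype := by
      ext x
      simp [LinearMap.sum_apply]
    rw [h1, LinearMap.range_comp, Submodule.range_subtype]
    have h2 := finrank_le_map_add_ker (∑ i, l i • (A i).mulVecLin) V
    have h4 := LinearMap.finrank_range_add_finrank_ker (∑ i, l i • (A i).mulVecLin)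
    rw [finrank_fin_fun] at h4
    have h5 := rk_of hRC l hl
    omega)
  refine ⟨x, v, fun i => ?_, hx', hv⟩
  have h1 : φ v = 0 := v.2
  rw [← hφ, h1]
  rfl

/-- the linear conditions on the second vector -/
noncomputable def phi (M : Fin k → Matrix (Fin n) (Fin n) ℂ) (i0 : Fin k) (a : Fin n → ℂ) :
    (Fin n → ℂ) →ₗ[ℂ] ({i : Fin k // i ≠ i0} → ℂ) where
  toFun b := fun i => a ⬝ᵥ (M i.1).mulVec b
  map_add' := by
    intro x y
    funext i
    simp only [Pi.add_apply, Matrix.mulVec_add, dotProduct_add]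
  map_smul' := by
    intro c x
    funext i
    simp only [Pi.smul_apply, RingHom.id_apply, Matrix.mulVec_smul, dotProduct_smul]

/-- smoothness gives large ranks -/
theorem smt (A : Fin k → Matrix (Fin n) (Fin n) F) (hS : Smth A) (hkn : k ≤ n) :
    RC A (n - k + 1) := by
  intro σ l hl
  by_contra hcon
  push Not at hcon
  obtain ⟨i0, hi0⟩ : ∃ i0, l i0 ≠ 0 := by
    by_contra h
    push Not at h
    exact hl (funext h)
  set M : Fin k → Matrix (Fin n) (Fin n) ℂ := fun i => (A i).map σ with hM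
  set B : Matrix (Fin n) (Fin n) ℂ := ∑ i, l i • M i with hB
  have hcon' : B.rank < n - k + 1 := hcon
  have hk0 : 0 < k := lt_of_le_of_lt (Nat.zero_le _) i0.2
  have hker : ∀ B' : Matrix (Fin n) (Fin n) ℂ,
      B'.rank + finrank ℂ (LinearMap.ker B'.mulVecLin) = n := by
    intro B'
    have := LinearMap.finrank_range_add_finrank_ker B'.mulVecLin
    rw [finrank_fin_fun] at this
    exact this
  set K : Submodule ℂ (Fin n → ℂ) := LinearMap.ker B.mulVecLin with hK
  have h1 : B.rank + finrank ℂ K = n := hker B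
  have h1' := hker Bᵀ
  rw [Matrix.rank_transpose] at h1'
  have h2 : k ≤ finrank ℂ K := by omega
  obtain ⟨x, hxB, hx0'⟩ : ∃ x : Fin n → ℂ, x ᵥ* B = 0 ∧ x ≠ 0 := by
    have hpos : 0 < finrank ℂ (LinearMap.ker Bᵀ.mulVecLin) := by omega
    have : Nontrivial (LinearMap.ker Bᵀ.mulVecLin) := finrank_pos_iff.1 hpos
    obtain ⟨x, hx0⟩ := exists_ne (0 : LinearMap.ker Bᵀ.mulVecLin)
    refine ⟨x.1, ?_, fun h => hx0 (Subtype.ext h)⟩
    have h3 : Bᵀ *ᵥ x.1 = 0 := x.2
    rwa [Matrix.mulVec_transpose] at h3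
  set φ : K →ₗ[ℂ] ({i : Fin k // i ≠ i0} → ℂ) := (phi M i0 x).comp K.subtype with hφ
  have h3 : finrank ℂ (LinearMap.range φ) ≤ k - 1 := by
    refine (Submodule.finrank_le _).trans ?_
    rw [finrank_fintype_fun_eq_card]
    have : Fintype.card {i : Fin k // i ≠ i0} = k - 1 := by
      rw [Fintype.card_subtype_compl, Fintype.card_fin, Fintype.card_subtype_eq]
    rw [this]
  have h4 := LinearMap.finrank_range_add_finrank_ker φ
  obtain ⟨y, hyK, hy0', hne⟩ : ∃ y : Fin n → ℂ, B *ᵥ y = 0 ∧ y ≠ 0 ∧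
      ∀ i, i ≠ i0 → x ⬝ᵥ (M i).mulVec y = 0 := by
    have hpos : 0 < finrank ℂ (LinearMap.ker φ) := by omega
    have : Nontrivial (LinearMap.ker φ) := finrank_pos_iff.1 hpos
    obtain ⟨y, hy0⟩ := exists_ne (0 : LinearMap.ker φ)
    refine ⟨y.1.1, y.1.2, fun h => hy0 (Subtype.ext (Subtype.ext h)), ?_⟩
    intro i hi
    have := congrFun (show φ y.1 = 0 from y.2) ⟨i, hi⟩
    exact this
  have hsum : x ⬝ᵥ B.mulVec y = ∑ i, l i * (x ⬝ᵥ (M i).mulVec y) := by
    rw [hB, Matrix.sum_mulVec, dotProduct_sum]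
    refine Finset.sum_congr rfl fun i _ => ?_
    rw [Matrix.smul_mulVec, dotProduct_smul, smul_eq_mul]
  have hall : ∀ i, x ⬝ᵥ ((A i).map σ).mulVec y = 0 := by
    intro i
    by_cases hi : i = i0
    · rw [hi]
      rw [hyK, dotProduct_zero, Finset.sum_eq_single i0] at hsum
      · have := (mul_eq_zero.1 hsum.symm).resolve_left hi0
        exact this
      · intro j _ hj
        rw [hne j hj, mul_zero]
      · intro h; exact absurd (Finset.mem_univ _) h
    · exact hne i hi
  rcases hS σ x y hx0' hy0' hall l hl with h | h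
  · exact h hyK
  · exact h hxB

end Pool.Agent.U239.BI
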