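import Mathlib
import Pool.Agent.U239.BI.Eng
import Pool.Agent.N752.HY.Rep2
import Pool.Agent.N852.GR.Ctt

/-!
Systems of bilinear equations over number fields: from pairs of vectors to pairs of points.
-/

namespace Pool.Agent.U239.BI

open scoped Classical
open NumberField Module Matrix
open Pool.Agent.N852.GR

variable {F : Type} [Field F] [NumberField F] {n k : ℕ}

/-- balanced integral representatives -/
theorem rep (P : Projectivization F (Fin n → F)) : ∃ (lam : F) (y : Fin n → 𝓞 F), lam ≠ 0 ∧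
    co y = lam • P.rep ∧ ‖io y‖ ^ finrank ℚ F ≤ (√|(discr F : ℝ)| + 1) * P.mulHeight := by
  obtain ⟨lam, y, h0, h1, h2, -⟩ := Pool.Agent.N752.HY.Rep2.t_REP F _ _ n P.rep P.rep_nonzero
  refine ⟨lam, y, h0, ?_, ?_⟩
  · funext j
    exact h1 j
  · set d := finrank ℚ F with hd
    have hd0 : 0 < d := finrank_pos
    have hH : P.mulHeight = Height.mulHeight P.rep := by
      conv_lhs => rw [← P.mk_rep, Projectivization.mulHeight_mk]
    rw [hH]
    have hq : 0 ≤ √|(discr F : ℝ)| := Real.sqrt_nonneg _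
    have hH0 : 0 < Height.mulHeight P.rep := Height.mulHeight_pos _
    set B : ℝ := (√|(discr F : ℝ)| + 1) * Height.mulHeight P.rep with hB
    have hB0 : 0 ≤ B := by positivity
    have hBd : (B ^ (1 / (d : ℝ))) ^ d = B := by
      rw [← Real.rpow_natCast, ← Real.rpow_mul hB0, one_div,
        inv_mul_cancel₀ (by exact_mod_cast hd0.ne'), Real.rpow_one]
    have h3 : ‖io y‖ ≤ B ^ (1 / (d : ℝ)) := by
      apply Ctt.io_le y _ (by positivity)
      intro i w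
      have h4 := h2 w i
      rw [← hBd] at h4
      exact le_of_pow_le_pow_left₀ hd0.ne' (by positivity) h4
    calc ‖io y‖ ^ d ≤ (B ^ (1 / (d : ℝ))) ^ d := pow_le_pow_left₀ (norm_nonneg _) h3 _
      _ = B := hBd

theorem point_eq {P P' : Projectivization F (Fin n → F)} {c c' : F} {y : Fin n → F} (hc : c ≠ 0)
    (hc' : c' ≠ 0) (h : y = c • P.rep) (h' : y = c' • P'.rep) : P = P' := by
  rw [← P.mk_rep, ← P'.mk_rep, Projectivization.mk_eq_mk_iff']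
  refine ⟨c⁻¹ * c', ?_⟩
  rw [mul_smul, ← h', h, smul_smul, inv_mul_cancel₀ hc, one_smul]

/-- the inequality for the dyadic boxes -/
theorem box_le {T' u y l0 l1 α d : ℝ} (hl0 : 0 < l0) (hl1 : 0 < l1) (hd : 0 < d) (hu : 1 ≤ u)
    (hy : 1 ≤ y) (h0 : 1 / l0 ≤ α) (h1 : 1 / l1 ≤ α) (hT : u ^ (d * l0) * y ^ (d * l1) = T') :
    (u * y) ^ d ≤ T' ^ α := by
  have hu0 : 0 < u := by linarith
  have hy0 : 0 < y := by linarith
  have e1 : u ^ d ≤ (u ^ (d * l0)) ^ α := by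
    rw [← Real.rpow_mul hu0.le]
    apply Real.rpow_le_rpow_of_exponent_le hu
    rw [div_le_iff₀ hl0] at h0
    nlinarith
  have e2 : y ^ d ≤ (y ^ (d * l1)) ^ α := by
    rw [← Real.rpow_mul hy0.le]
    apply Real.rpow_le_rpow_of_exponent_le hy
    rw [div_le_iff₀ hl1] at h1
    nlinarith
  rw [Real.mul_rpow hu0.le hy0.le, ← hT, Real.mul_rpow (by positivity) (by positivity)]
  exact mul_le_mul e1 e2 (by positivity) (by positivity)

/-- the count of the points -/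
theorem fin (hL : LatP F) (A : Fin k → Matrix (Fin n) (Fin n) (𝓞 F)) (hk : 1 ≤ k) (hkn : k ≤ n)
    (hE : ∀ ε : ℝ, 0 < ε → ∃ C : ℝ, 1 ≤ C ∧ ∀ X Y M : ℝ, 1 ≤ X → X ≤ M → 1 ≤ Y → Y ≤ M →
      (GS A X Y).Finite ∧
        ((GS A X Y).ncard : ℝ) ≤ C * (X * Y) ^ (finrank ℚ F * (n - k)) * M ^ ε)
    (l : Fin 2 → ℝ) (hl : ∀ i, 0 < l i) (ε : ℝ) (hε : 0 < ε) : ∃ C : ℝ, ∀ T : ℝ, 1 ≤ T →
      ∀ S : Set (Projectivization F (Fin n → F) × Projectivization F (Fin n → F)),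
        (∀ z ∈ S, (∀ a b : Fin n → 𝓞 F, (∃ c : F, c ≠ 0 ∧ co a = c • z.1.rep) →
          (∃ c : F, c ≠ 0 ∧ co b = c • z.2.rep) →
            Gd A a ∧ Gd (tr A) b ∧ ∀ i, dr A a i ⬝ᵥ b = 0) ∧
          z.1.mulHeight ^ l 0 * z.2.mulHeight ^ l 1 ≤ T) →
        S.Finite ∧ (S.ncard : ℝ) ≤ C * T ^ (((n : ℝ) - k) * max (1 / l 0) (1 / l 1) + ε) := by
  have hd : 0 < finrank ℚ F := finrank_pos
  set d := finrank ℚ F with hddef
  have hdR : (0 : ℝ) < d := by exact_mod_cast hd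
  have hl0 := hl 0
  have hl1 := hl 1
  set α : ℝ := max (1 / l 0) (1 / l 1) with hα
  have hα0 : 1 / l 0 ≤ α := le_max_left _ _
  have hα1 : 1 / l 1 ≤ α := le_max_right _ _
  have hαpos : 0 < α := lt_of_lt_of_le (by positivity) hα0
  set c : ℝ := √|(discr F : ℝ)| + 1 with hc
  have hc1 : 1 ≤ c := by
    have : 0 ≤ √|(discr F : ℝ)| := Real.sqrt_nonneg _
    linarith
  have hc0 : 0 < c := by linarith
  set ε₁ : ℝ := d * ε / (2 * α) with hε₁
  have hε₁0 : 0 < ε₁ := by positivity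
  obtain ⟨C, hC, hE⟩ := hE ε₁ hε₁0
  have hlog2 : 0 < Real.log 2 := Real.log_pos one_lt_two
  set C2 : ℝ := 1 / (ε₁ * Real.log 2) + 1 with hC2
  have hC20 : 0 < C2 := by positivity
  set m := n - k with hm
  have hmR : ((n : ℝ) - k) = (m : ℝ) := by
    rw [hm, Nat.cast_sub hkn]
  set c' : ℝ := c ^ (l 0 + l 1) with hc'
  have hc'1 : 1 ≤ c' := Real.one_le_rpow hc1 (by linarith)
  have hc'0 : 0 < c' := by linarith
  refine ⟨C2 * C * 2 ^ (d * m) * 2 ^ ε₁ * c' ^ ((m : ℝ) * α + ε), ?_⟩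
  intro T hT S hS
  have hT0 : 0 < T := by linarith
  set T' : ℝ := c' * T with hT'
  have hT'1 : 1 ≤ T' := by nlinarith
  have hT'0 : 0 < T' := by linarith
  set Q : ℝ := T' ^ (α / (d : ℝ)) with hQ
  have hQ1 : 1 ≤ Q := Real.one_le_rpow hT'1 (by positivity)
  have hQ0 : 0 < Q := by linarith
  set N : ℕ := ⌊Q ^ ε₁ / (ε₁ * Real.log 2)⌋₊ + 1 with hN
  have hNle : (N : ℝ) ≤ C2 * Q ^ ε₁ := by
    have h1 : 1 ≤ Q ^ ε₁ := Real.one_le_rpow hQ1 hε₁0.le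
    have h2 : ((⌊Q ^ ε₁ / (ε₁ * Real.log 2)⌋₊ : ℕ) : ℝ) ≤ Q ^ ε₁ / (ε₁ * Real.log 2) :=
      Nat.floor_le (by positivity)
    rw [hN, hC2]
    push_cast
    have h3 : (1 / (ε₁ * Real.log 2) + 1) * Q ^ ε₁ = Q ^ ε₁ / (ε₁ * Real.log 2) + Q ^ ε₁ := by
      field_simp
    rw [h3]
    linarith
  set Y : ℕ → ℝ := fun i => (T' / ((2 : ℝ) ^ i) ^ ((d : ℝ) * l 0)) ^ (1 / ((d : ℝ) * l 1)) with hY
  have h2i1 : ∀ i : ℕ, (1 : ℝ) ≤ 2 ^ i := fun i => one_le_pow₀ (by norm_num)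
  have h2i0 : ∀ i : ℕ, (0 : ℝ) < 2 ^ i := fun i => by positivity
  have hbase : ∀ i : ℕ, 0 < T' / ((2 : ℝ) ^ i) ^ ((d : ℝ) * l 0) := fun i => by
    have := h2i0 i
    positivity
  have hY0 : ∀ i, 0 < Y i := fun i => Real.rpow_pos_of_pos (hbase i) _
  have hYeq : ∀ i, ((2 : ℝ) ^ i) ^ ((d : ℝ) * l 0) * (Y i) ^ ((d : ℝ) * l 1) = T' := by
    intro i
    have h1 : (Y i) ^ ((d : ℝ) * l 1) = T' / ((2 : ℝ) ^ i) ^ ((d : ℝ) * l 0) := by
      rw [hY]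
      simp only
      rw [← Real.rpow_mul (hbase i).le, one_div, inv_mul_cancel₀ (by positivity), Real.rpow_one]
    rw [h1]
    have := h2i0 i
    field_simp
  -- the places where `Y i ≥ 1`
  have hbox : ∀ i, 1 ≤ Y i → (2 : ℝ) ^ i ≤ Q ∧ Y i ≤ Q ∧ ((2 : ℝ) ^ i * Y i) ^ d ≤ T' ^ α := by
    intro i hi
    have h1 := hYeq i
    have h3 : (1 : ℝ) ≤ (Y i) ^ ((d : ℝ) * l 1) := Real.one_le_rpow hi (by positivity)
    have h4 : (1 : ℝ) ≤ ((2 : ℝ) ^ i) ^ ((d : ℝ) * l 0) := Real.one_le_rpow (h2i1 i) (by positivity)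
    have h5 : ((2 : ℝ) ^ i) ^ ((d : ℝ) * l 0) ≤ T' := by nlinarith
    have h6 : (Y i) ^ ((d : ℝ) * l 1) ≤ T' := by nlinarith
    have h7 : ∀ x e : ℝ, 1 ≤ x → 0 < e → 1 / e ≤ α → x ^ ((d : ℝ) * e) ≤ T' → x ≤ Q := by
      intro x e hx he hea hxe
      have hx0 : 0 < x := by linarith
      have h8 : x = (x ^ ((d : ℝ) * e)) ^ (1 / ((d : ℝ) * e)) := by
        rw [← Real.rpow_mul hx0.le, one_div, mul_inv_cancel₀ (by positivity), Real.rpow_one]
      rw [h8]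
      calc (x ^ ((d : ℝ) * e)) ^ (1 / ((d : ℝ) * e)) ≤ T' ^ (1 / ((d : ℝ) * e)) :=
            Real.rpow_le_rpow (by positivity) hxe (by positivity)
        _ ≤ T' ^ (α / (d : ℝ)) := by
            apply Real.rpow_le_rpow_of_exponent_le hT'1
            rw [div_le_div_iff₀ (by positivity) hdR]
            rw [div_le_iff₀ he] at hea
            nlinarith
    refine ⟨h7 _ _ (h2i1 i) hl0 hα0 h5, h7 _ _ hi hl1 hα1 h6, ?_⟩
    have h9 := box_le hl0 hl1 hdR (h2i1 i) hi hα0 hα1 h1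
    rw [Real.rpow_natCast] at h9
    exact h9
  -- the choice of the representatives
  have hex : ∀ z : Projectivization F (Fin n → F) × Projectivization F (Fin n → F),
      ∃ p : (Fin n → 𝓞 F) × (Fin n → 𝓞 F),
      (∃ c : F, c ≠ 0 ∧ co p.1 = c • z.1.rep) ∧ (∃ c : F, c ≠ 0 ∧ co p.2 = c • z.2.rep) ∧
        ‖io p.1‖ ^ d ≤ c * z.1.mulHeight ∧ ‖io p.2‖ ^ d ≤ c * z.2.mulHeight := by
    intro z
    obtain ⟨c1, y1, h1, h2, h3⟩ := rep z.1
    obtain ⟨c2, y2, g1, g2, g3⟩ := rep z.2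
    exact ⟨(y1, y2), ⟨c1, h1, h2⟩, ⟨c2, g1, g2⟩, h3, g3⟩
  choose f hf1 hf2 hf3 hf4 using hex
  set V : Set ((Fin n → 𝓞 F) × (Fin n → 𝓞 F)) :=
    ⋃ i ∈ Finset.range N, GS A (2 ^ (i + 1)) (Y i) with hV
  set K : ℝ := C * (2 ^ (d * m) * T' ^ ((m : ℝ) * α)) * (2 * Q) ^ ε₁ with hK
  have hK0 : 0 ≤ K := by positivity
  have hall : ∀ i : ℕ, (GS A (2 ^ (i + 1)) (Y i)).Finite ∧
      ((GS A (2 ^ (i + 1)) (Y i)).ncard : ℝ) ≤ K := by
    intro i
    by_cases hi : 1 ≤ Y i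
    · obtain ⟨h1, h2, h3⟩ := hbox i hi
      have e1 : (2 : ℝ) ^ (i + 1) = 2 * 2 ^ i := by ring
      have h4 := hE (2 ^ (i + 1)) (Y i) (2 * Q) (one_le_pow₀ (by norm_num)) (by linarith) hi
        (by linarith)
      refine ⟨h4.1, h4.2.trans ?_⟩
      rw [hK]
      refine mul_le_mul_of_nonneg_right ?_ (by positivity)
      refine mul_le_mul_of_nonneg_left ?_ (by linarith)
      have e2 : ((2 : ℝ) ^ (i + 1) * Y i) ^ (d * m) = 2 ^ (d * m) * (((2 : ℝ) ^ i * Y i) ^ d) ^ m := by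
        rw [e1, mul_assoc, mul_pow, pow_mul ((2 : ℝ) ^ i * Y i)]
      rw [e2]
      refine mul_le_mul_of_nonneg_left ?_ (by positivity)
      have h5 : 0 ≤ ((2 : ℝ) ^ i * Y i) ^ d := by
        have := hY0 i
        positivity
      calc (((2 : ℝ) ^ i * Y i) ^ d) ^ m ≤ (T' ^ α) ^ m := pow_le_pow_left₀ h5 h3 _
        _ = T' ^ ((m : ℝ) * α) := by
            rw [← Real.rpow_natCast (T' ^ α), ← Real.rpow_mul hT'0.le, mul_comm]
    · have hemp : GS A (2 ^ (i + 1)) (Y i) = ∅ := by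
        ext ⟨a, b⟩
        simp only [Set.mem_empty_iff_false, iff_false]
        rintro ⟨⟨h1, h2, h3, h4⟩, h5⟩
        have hb : b ≠ 0 := by
          rintro rfl
          have h6 := h5.ne_zero (⟨0, hk⟩ : Fin k)
          apply h6
          funext j
          simp [co, dr]
        have h6 := (hL n).1 b hb
        have h8 : ‖io b‖ ≤ Y i := h2
        linarith
      rw [hemp]
      refine ⟨Set.finite_empty, ?_⟩
      rw [Set.ncard_empty, Nat.cast_zero]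
      exact hK0
  have hVfin : V.Finite := (Finset.range N).finite_toSet.biUnion fun i _ => (hall i).1
  have hmaps : ∀ z ∈ S, f z ∈ V := by
    intro z hz
    obtain ⟨h3, hht⟩ := hS z hz
    obtain ⟨hga, hgb, heq⟩ := h3 _ _ (hf1 z) (hf2 z)
    have hne : ∀ (B : Fin k → Matrix (Fin n) (Fin n) (𝓞 F)) (b : Fin n → 𝓞 F), Gd B b → b ≠ 0 := by
      rintro B b h5 rfl
      have h6 := h5.ne_zero (⟨0, hk⟩ : Fin k)
      apply h6
      funext j
      simp [co, dr]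
    have ha1 : 1 ≤ ‖io (f z).1‖ := (hL n).1 _ (hne _ _ hga)
    have hb1 : 1 ≤ ‖io (f z).2‖ := (hL n).1 _ (hne _ _ hgb)
    have ha0 : 0 < ‖io (f z).1‖ := by linarith
    have hb0 : 0 < ‖io (f z).2‖ := by linarith
    have hH1 : 0 < z.1.mulHeight := z.1.mulHeight_pos
    have hH2 : 0 < z.2.mulHeight := z.2.mulHeight_pos
    have hprod : ‖io (f z).1‖ ^ ((d : ℝ) * l 0) * ‖io (f z).2‖ ^ ((d : ℝ) * l 1) ≤ T' := by
      have e1 : ‖io (f z).1‖ ^ ((d : ℝ) * l 0) ≤ (c * z.1.mulHeight) ^ l 0 := by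
        rw [Real.rpow_mul ha0.le, Real.rpow_natCast]
        exact Real.rpow_le_rpow (by positivity) (hf3 z) hl0.le
      have e2 : ‖io (f z).2‖ ^ ((d : ℝ) * l 1) ≤ (c * z.2.mulHeight) ^ l 1 := by
        rw [Real.rpow_mul hb0.le, Real.rpow_natCast]
        exact Real.rpow_le_rpow (by positivity) (hf4 z) hl1.le
      calc _ ≤ (c * z.1.mulHeight) ^ l 0 * (c * z.2.mulHeight) ^ l 1 :=
            mul_le_mul e1 e2 (by positivity) (by positivity)
        _ = c' * (z.1.mulHeight ^ l 0 * z.2.mulHeight ^ l 1) := by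
            rw [hc', Real.rpow_add hc0, Real.mul_rpow hc0.le hH1.le, Real.mul_rpow hc0.le hH2.le]
            ring
        _ ≤ c' * T := mul_le_mul_of_nonneg_left hht hc'0.le
    obtain ⟨i, hi1, hi2⟩ := exists_nat_pow_near ha1 one_lt_two
    have hbY : ‖io (f z).2‖ ≤ Y i := by
      have h7 : ‖io (f z).2‖ ^ ((d : ℝ) * l 1) ≤ T' / ((2 : ℝ) ^ i) ^ ((d : ℝ) * l 0) := by
        rw [le_div_iff₀ (Real.rpow_pos_of_pos (h2i0 i) _)]
        have h8 : ((2 : ℝ) ^ i) ^ ((d : ℝ) * l 0) ≤ ‖io (f z).1‖ ^ ((d : ℝ) * l 0) :=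
          Real.rpow_le_rpow (h2i0 i).le hi1 (by positivity)
        have h9 : 0 ≤ ‖io (f z).2‖ ^ ((d : ℝ) * l 1) := by positivity
        nlinarith
      have h8 : ‖io (f z).2‖ = (‖io (f z).2‖ ^ ((d : ℝ) * l 1)) ^ (1 / ((d : ℝ) * l 1)) := by
        rw [← Real.rpow_mul hb0.le, one_div, mul_inv_cancel₀ (by positivity), Real.rpow_one]
      rw [h8]
      exact Real.rpow_le_rpow (by positivity) h7 (by positivity)
    have hiQ : (2 : ℝ) ^ i ≤ Q := (hbox i (hb1.trans hbY)).1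
    rw [hV, Set.mem_iUnion₂]
    refine ⟨i, ?_, ?_⟩
    · rw [Finset.mem_range, hN, Nat.lt_succ_iff]
      apply Nat.le_floor
      have h4 : (i : ℝ) * Real.log 2 ≤ Real.log Q := by
        rw [← Real.log_pow]
        exact Real.log_le_log (h2i0 i) hiQ
      have h5 := Real.log_le_rpow_div hQ0.le hε₁0
      rw [le_div_iff₀ (by positivity)]
      rw [le_div_iff₀ hε₁0] at h5
      nlinarith
    · exact ⟨⟨hi2.le, hbY, hga, heq⟩, hgb⟩
  have hinj : Set.InjOn f S := by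
    intro z hz z' hz' h
    obtain ⟨c1, h1, h2⟩ := hf1 z
    obtain ⟨c2, h3, h4⟩ := hf2 z
    obtain ⟨c3, h5, h6⟩ := hf1 z'
    obtain ⟨c4, h7, h8⟩ := hf2 z'
    rw [← h] at h6 h8
    exact Prod.ext (point_eq h1 h5 h2 h6) (point_eq h3 h7 h4 h8)
  have hSfin : S.Finite := Set.Finite.of_injOn hmaps hinj hVfin
  refine ⟨hSfin, ?_⟩
  have h1 : S.ncard ≤ V.ncard := Set.ncard_le_ncard_of_injOn f hmaps hinj hVfin
  have h2 : (V.ncard : ℝ) ≤ ∑ i ∈ Finset.range N, K := by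
    have h3 : V.ncard ≤ ∑ i ∈ Finset.range N, (GS A (2 ^ (i + 1)) (Y i)).ncard := by
      rw [hV]
      exact Finset.set_ncard_biUnion_le _ _
    have h4 : (V.ncard : ℝ) ≤
        ∑ i ∈ Finset.range N, ((GS A (2 ^ (i + 1)) (Y i)).ncard : ℝ) := by
      exact_mod_cast h3
    exact h4.trans (Finset.sum_le_sum fun i _ => (hall i).2)
  rw [Finset.sum_const, Finset.card_range, nsmul_eq_mul] at h2
  have h5 : (S.ncard : ℝ) ≤ (C2 * Q ^ ε₁) * K := by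
    have : (S.ncard : ℝ) ≤ V.ncard := by exact_mod_cast h1
    exact (this.trans h2).trans (mul_le_mul_of_nonneg_right hNle hK0)
  refine h5.trans (le_of_eq ?_)
  rw [hmR, hK]
  have e2 : (2 * Q) ^ ε₁ = 2 ^ ε₁ * Q ^ ε₁ := Real.mul_rpow (by norm_num) hQ0.le
  have e3 : Q ^ ε₁ * Q ^ ε₁ = T' ^ ε := by
    rw [← Real.rpow_add hQ0, hQ, ← Real.rpow_mul (by positivity)]
    congr 1
    rw [hε₁]
    field_simp
    ring
  have e4 : T' ^ ((m : ℝ) * α) * T' ^ ε = c' ^ ((m : ℝ) * α + ε) * T ^ ((m : ℝ) * α + ε) := by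
    rw [← Real.rpow_add hT'0, hT', Real.mul_rpow hc'0.le hT0.le]
  rw [e2]
  calc C2 * Q ^ ε₁ * (C * (2 ^ (d * m) * T' ^ ((m : ℝ) * α)) * (2 ^ ε₁ * Q ^ ε₁))
      = C2 * C * 2 ^ (d * m) * 2 ^ ε₁ * (T' ^ ((m : ℝ) * α) * (Q ^ ε₁ * Q ^ ε₁)) := by ring
    _ = _ := by
        rw [e3, e4]; ring

end Pool.Agent.U239.BI
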